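import Pool.Agent.Lib.MP_071b0a_lc.Defs

open Cardinal Ordinal Set

universe u v

namespace Pool.Agent.Lib.MP_071b0a_lc

section Forcing

variable {S : Type u} {P : Type v} [Preorder P] {U : PowerName S P}

theorem Forces.mono {p q : P} {A : Set S} (h : Forces U p A) (hq : q ≤ p) : Forces U q A :=
  fun r hr => h r (hr.trans hq)

theorem forces_of_dense {p : P} {A : Set S} (h : ∀ q ≤ p, ∃ r ≤ q, Forces U r A) :
    Forces U p A := by
  intro q hq
  obtain ⟨r, hr, hrA⟩ := h q hq
  obtain ⟨t, ht, s, hs⟩ := hrA r le_rfl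
  exact ⟨t, ht.trans hr, s, hs⟩

variable [LinearOrder S]

theorem IsNormalUltrafilterName.cobounded (hU : IsNormalUltrafilterName U) (p : P)
    {A : Set S} (hA : BddAbove Aᶜ) : Forces U p A := by
  apply forces_of_dense
  intro q _
  obtain ⟨r, hr, h | h⟩ := hU.decide q A
  · exact ⟨r, hr, h⟩
  · exact absurd h (hU.uniform r _ hA)

theorem IsNormalUltrafilterName.not_forces_empty [Nonempty S] (hU : IsNormalUltrafilterName U)
    (p : P) : ¬ Forces U p (∅ : Set S) :=
  hU.uniform p _ bddAbove_empty

/-- `V`-completeness: a function with small range is constant on a set in `U`. -/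
theorem IsNormalUltrafilterName.exists_const [Nonempty S] (hU : IsNormalUltrafilterName U)
    {T : Type u} (g : T → S) (hg : Function.Injective g) (hb : BddAbove (Set.range g))
    (f : S → T) (p : P) : ∃ q ≤ p, ∃ t : T, Forces U q {a | f a = t} := by
  obtain ⟨b, hb⟩ := hb
  have h1 : Forces U p {a | g (f a) < a} := by
    apply hU.cobounded
    refine ⟨b, ?_⟩
    intro a ha
    simp only [mem_compl_iff, mem_ofPred_eq, not_lt] at ha
    exact ha.trans (hb ⟨f a, rfl⟩)
  obtain ⟨q, hq, c, hc⟩ := hU.normal p (fun a => g (f a)) h1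
  by_cases hcr : ∃ t, g t = c
  · obtain ⟨t, rfl⟩ := hcr
    refine ⟨q, hq, t, ?_⟩
    refine hU.superset q _ _ hc ?_
    intro a ha
    exact hg ha
  · exfalso
    apply hU.not_forces_empty q
    refine hU.superset q _ _ hc ?_
    intro a ha
    exact hcr ⟨_, ha⟩

/-- `V`-completeness: closure under small intersections of families in `V`. -/
theorem IsNormalUltrafilterName.iInter [Nonempty S] (hU : IsNormalUltrafilterName U)
    {T : Type u} (g : Option T → S) (hg : Function.Injective g) (hb : BddAbove (Set.range g))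
    (X : T → Set S) (p : P) (hX : ∀ t, Forces U p (X t)) : Forces U p (⋂ t, X t) := by
  classical
  apply forces_of_dense
  intro q hq
  let h : S → Option T := fun a => if h : ∃ t, a ∉ X t then some h.choose else none
  obtain ⟨r, hr, o, ho⟩ := hU.exists_const g hg hb h q
  refine ⟨r, hr, ?_⟩
  cases o with
  | none =>
    refine hU.superset r _ _ ho ?_
    intro a ha
    simp only [mem_ofPred_eq, h] at ha
    by_contra hcon
    simp only [mem_iInter, not_forall] at hcon
    rw [dif_pos hcon] at ha
    cases ha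
  | some t =>
    exfalso
    apply hU.not_forces_empty r
    have h2 := hU.inter r _ _ ho ((hX t).mono (hr.trans hq))
    refine hU.superset r _ _ h2 ?_
    rintro a ⟨ha, hat⟩
    simp only [mem_ofPred_eq, h] at ha
    by_cases hex : ∃ t, a ∉ X t
    · rw [dif_pos hex] at ha
      have := hex.choose_spec
      rw [Option.some.inj ha] at this
      exact absurd hat this
    · rw [dif_neg hex] at ha
      cases ha

end Forcing

/-- In a `<γ`-closed notion of forcing, one can meet fewer than `γ` open requirements along a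
decreasing sequence, and below any given condition. -/
theorem exists_fusion {P : Type v} [Preorder P] {γ : Cardinal.{u}} (hP : IsLtClosed P γ)
    (δ : Ordinal.{u}) (hδ : δ < γ.ord) (R : Ordinal.{u} → P → Prop)
    (hR : ∀ i < δ, ∀ p : P, ∃ q ≤ p, R i q) (p₀ : P) :
    ∃ q ≤ p₀, ∀ i < δ, ∃ r, q ≤ r ∧ R i r := by
  classical
  let F : Ordinal.{u} → P := WellFounded.fix (C := fun _ => P) Ordinal.lt_wf
    (fun i F => if h : ∃ q, q ≤ p₀ ∧ (∀ j, (hj : j < i) → q ≤ F j hj) ∧ R i q then h.choose
      else p₀)
  have hF : ∀ i, F i = if h : ∃ q, q ≤ p₀ ∧ (∀ j, j < i → q ≤ F j) ∧ R i q then h.choose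
      else p₀ := by
    intro i
    exact WellFounded.fix_eq _ _ _
  have key : ∀ i < δ, F i ≤ p₀ ∧ (∀ j, j < i → F i ≤ F j) ∧ R i (F i) := by
    intro i
    induction i using WellFoundedLT.induction with
    | ind i IH =>
      intro hi
      have hex : ∃ q, q ≤ p₀ ∧ (∀ j, j < i → q ≤ F j) ∧ R i q := by
        have hlow : ∃ q, q ≤ p₀ ∧ (∀ j, j < i → q ≤ F j) := by
          by_cases h0 : i = 0
          · subst h0
            exact ⟨p₀, le_rfl, fun j hj => absurd hj (by simp)⟩
          · have hpos : 0 < i := pos_iff_ne_zero.mpr h0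
            obtain ⟨q, hq⟩ := hP i (hi.trans hδ) (fun j => F j) (by
              intro a b hab
              rcases hab.eq_or_lt with h | h
              · rw [h]
              · exact (IH b b.2 (lt_trans b.2 hi)).2.1 a h)
            refine ⟨q, (hq ⟨0, hpos⟩).trans (IH 0 hpos (hpos.trans hi)).1, ?_⟩
            intro j hj
            exact hq ⟨j, hj⟩
        obtain ⟨q, hq0, hq⟩ := hlow
        obtain ⟨r, hr, hRr⟩ := hR i hi q
        exact ⟨r, hr.trans hq0, fun j hj => hr.trans (hq j hj), hRr⟩
      have := hF i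
      rw [dif_pos hex] at this
      rw [this]
      exact hex.choose_spec
  by_cases h0 : δ = 0
  · subst h0
    exact ⟨p₀, le_rfl, fun i hi => absurd hi (by simp)⟩
  · have hpos : 0 < δ := pos_iff_ne_zero.mpr h0
    obtain ⟨q, hq⟩ := hP δ hδ (fun j => F j) (by
      intro a b hab
      rcases hab.eq_or_lt with h | h
      · rw [h]
      · exact (key b b.2).2.1 a h)
    refine ⟨q, (hq ⟨0, hpos⟩).trans (key 0 hpos).1, ?_⟩
    intro i hi
    exact ⟨F i, hq ⟨i, hi⟩, (key i hi).2.2⟩

end Pool.Agent.Lib.MP_071b0a_lc
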