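import Mathlib

/-!
# Definitions for the bounded-ideal cut and choose game and for generic measurability

Everything is stated for cardinals of an arbitrary universe `u`, which plays the role of the
set-theoretic universe `V`.
-/

open Cardinal Ordinal Set

universe u v

namespace Pool.Agent.Lib.MP_071b0a_lc

/-- The set of all ordinals below the cardinal `κ`, as a well-ordered type. -/
abbrev Pts (κ : Cardinal.{u}) : Type u := κ.ord.ToType

/-- A strategy for Choose: in round `α` it sees the moves made by Cut in the rounds `β ≤ α`
(the move of Cut in round `β` is the first piece `A β` of the split of the current set `D β`;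
the second piece is `D β \ A β`), and it answers `true` (take the first piece) or
`false` (take the second piece). -/
abbrev ChooseStrategy (S : Type u) : Type (u + 1) :=
  (α : Ordinal.{u}) → (Set.Iic α → Set S) → Bool

/-- `(A, D, C)` is a run of length `δ` of the cut and choose game on the set `S` in which Choose
follows the strategy `σ`: the current set in round `0` is all of `S`; in round `α` Cut splits the
current set `D α` into `A α` and `D α \ A α`, and Choose picks the piece `C α`, which is the
next current set; at limits one takes intersections. -/
structure IsRun {S : Type u} (σ : ChooseStrategy S) (δ : Ordinal.{u})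
    (A D C : Ordinal.{u} → Set S) : Prop where
  zero : D 0 = Set.univ
  split : ∀ α < δ, A α ⊆ D α
  pick : ∀ α < δ, C α = if σ α (fun β => A β) = true then A α else D α \ A α
  succ : ∀ α, α + 1 < δ → D (α + 1) = C α
  limit : ∀ α < δ, Order.IsSuccLimit α → D α = ⋂ β ∈ Set.Iio α, C β

/-- Choose has a winning strategy in the game `U(κ, bd_κ, <γ)`: there is a strategy such that in
every run of length `γ` following it, all the chosen sets are unbounded in `κ`. -/
def ChooseWins (κ γ : Cardinal.{u}) : Prop :=
  ∃ σ : ChooseStrategy (Pts κ), ∀ A D C : Ordinal.{u} → Set (Pts κ),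
    IsRun σ γ.ord A D C → ∀ α < γ.ord, ¬ BddAbove (C α)

/-- The notion of forcing `P` (a preordered set, smaller conditions being stronger) is
`<γ`-closed: every decreasing sequence of conditions of length `< γ` has a lower bound. -/
def IsLtClosed (P : Type v) [Preorder P] (γ : Cardinal.{u}) : Prop :=
  ∀ δ < γ.ord, ∀ p : Set.Iio δ → P, Antitone p → ∃ q : P, ∀ i, q ≤ p i

/-- A `P`-name for a subset of `𝒫(S) ∩ V`, i.e. a set of pairs `(A, r)`, with `A` (the check name
of) a subset of `S` in `V` and `r` a condition. -/
abbrev PowerName (S : Type u) (P : Type v) : Type (max u v) := Set (Set S × P)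

/-- `p ⊩ A ∈ U`: the set of conditions `r` lying below some `s` with `(A, s) ∈ U` is dense
below `p`. -/
def Forces {S : Type u} {P : Type v} [Preorder P] (U : PowerName S P) (p : P)
    (A : Set S) : Prop :=
  ∀ q ≤ p, ∃ r ≤ q, ∃ s, (A, s) ∈ U ∧ r ≤ s

/-- Every condition forces that `U` is a uniform `V`-normal `V`-ultrafilter on the linearly
ordered set `S` (which will be the set of ordinals below a cardinal): `U` is an ultrafilter on
`𝒫(S) ∩ V`, it contains no bounded set, and every function in `V` that is regressive on a set
in `U` is constant on a set in `U`. -/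
structure IsNormalUltrafilterName {S : Type u} [LinearOrder S] {P : Type v} [Preorder P]
    (U : PowerName S P) : Prop where
  univ : ∀ p : P, Forces U p Set.univ
  superset : ∀ (p : P) (A B : Set S), Forces U p A → A ⊆ B → Forces U p B
  inter : ∀ (p : P) (A B : Set S), Forces U p A → Forces U p B → Forces U p (A ∩ B)
  decide : ∀ (p : P) (A : Set S), ∃ q ≤ p, Forces U q A ∨ Forces U q Aᶜ
  uniform : ∀ (p : P) (A : Set S), BddAbove A → ¬ Forces U p A
  normal : ∀ (p : P) (f : S → S), Forces U p {a | f a < a} →
    ∃ q ≤ p, ∃ b : S, Forces U q {a | f a = b}

/-- `κ` is generically measurable, as witnessed by the notion of forcing `P`. -/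
def IsGenericallyMeasurableBy (κ : Cardinal.{u}) (P : Type v) [Preorder P] : Prop :=
  ∃ U : PowerName (Pts κ) P, IsNormalUltrafilterName U

/-- `μ` is a strongly compact cardinal: `μ` is uncountable and regular, and every `μ`-complete
proper filter on any set extends to a `μ`-complete ultrafilter. -/
structure IsStronglyCompact (μ : Cardinal.{u}) : Prop where
  uncountable : ℵ₀ < μ
  regular : μ.IsRegular
  extend : ∀ (S : Type u) (F : Filter S), F.NeBot → CardinalInterFilter F μ →
    ∃ U : Ultrafilter S, (U : Filter S) ≤ F ∧ CardinalInterFilter (U : Filter S) μ

end Pool.Agent.Lib.MP_071b0a_lc
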