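import Pool.Agent.Lib.MP_071b0a_lc.Positive

/-!
# Choose wins iff a `<γ`-closed forcing adds a uniform `γ`-complete `V`-ultrafilter
-/

open Cardinal Ordinal Set

universe u v

namespace Pool.Agent.Lib.MP_071b0a_lc

/-- Every condition forces that `U` is a uniform `V`-ultrafilter on the linearly ordered set `S`
(it contains no bounded set) which is closed under intersections of fewer than `γ` of its
members, for families of sets lying in `V`. -/
structure IsCompleteUltrafilterName (γ : Cardinal.{u}) {S : Type u} [LinearOrder S] {P : Type v}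
    [Preorder P] (U : PowerName S P) : Prop where
  univ : ∀ p : P, Forces U p Set.univ
  superset : ∀ (p : P) (A B : Set S), Forces U p A → A ⊆ B → Forces U p B
  decide : ∀ (p : P) (A : Set S), ∃ q ≤ p, Forces U q A ∨ Forces U q Aᶜ
  uniform : ∀ (p : P) (A : Set S), BddAbove A → ¬ Forces U p A
  complete : ∀ (p : P) (T : Type u), #T < γ → ∀ X : T → Set S, (∀ t, Forces U p (X t)) →
    Forces U p (⋂ t, X t)

theorem IsCompleteUltrafilterName.inter {γ : Cardinal.{u}} (hγ : ℵ₀ ≤ γ) {S : Type u}
    [LinearOrder S] {P : Type v} [Preorder P] {U : PowerName S P}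
    (hU : IsCompleteUltrafilterName γ U) (p : P) (A B : Set S) (hA : Forces U p A)
    (hB : Forces U p B) : Forces U p (A ∩ B) := by
  have h1 : #(ULift.{u} Bool) < γ := by
    refine lt_of_lt_of_le ?_ hγ
    exact Cardinal.mk_lt_aleph0
  have h2 := hU.complete p (ULift.{u} Bool) h1 (fun t => if t.down = true then A else B) (by
    rintro ⟨t⟩
    cases t
    · simpa using hB
    · simpa using hA)
  refine hU.superset p _ _ h2 ?_
  intro a ha
  rw [mem_iInter] at ha
  exact ⟨by simpa using ha ⟨true⟩, by simpa using ha ⟨false⟩⟩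

/-- A winning strategy for Choose gives a `<γ`-closed forcing (the tree of positions) which adds
a uniform `γ`-complete `V`-ultrafilter. -/
theorem exists_completeName {κ γ : Cardinal.{u}} (hγ : γ.IsRegular) (h : ChooseWins κ γ) :
    ∃ (P : Type u) (_ : Preorder P), Nonempty P ∧ IsLtClosed P γ ∧
      ∃ U : PowerName (Pts κ) P, IsCompleteUltrafilterName γ U := by
  classical
  obtain ⟨σ, hσ⟩ := h
  have hD := generates_pos hγ.aleph0_le σ hσ
  have hP : IsLtClosed (Pos (Pts κ) γ) γ := Pos.isLtClosed hγ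
  have hne2 : Nonempty (Pos (Pts κ) γ) := by
    have h2 : Nonempty (Pts γ) := nonempty_pts hγ.pos.ne'
    obtain ⟨l⟩ := h2
    exact ⟨⟨l, fun _ => Set.univ⟩⟩
  let D : Pos (Pts κ) γ → Set (Pts κ) := fun p => p.cur σ
  let U : PowerName (Pts κ) (Pos (Pts κ) γ) := {x | D x.2 ⊆ x.1}
  have hF : ∀ (q : Pos (Pts κ) γ) (B : Set (Pts κ)), Forces U q B ↔
      ∀ r : Pos (Pts κ) γ, r ≤ q → ∃ s ≤ r, D s ⊆ B := by
    intro q B
    constructor
    · intro hq r hr
      obtain ⟨s, hs, t, ht, hst⟩ := hq r hr
      exact ⟨s, hs, (hD.mono hst).trans ht⟩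
    · intro hq r hr
      obtain ⟨s, hs, hsB⟩ := hq r hr
      exact ⟨s, hs, s, hsB, le_rfl⟩
  refine ⟨Pos (Pts κ) γ, inferInstance, hne2, hP, U, ?_⟩
  constructor
  · intro q
    rw [hF]
    exact fun r _ => ⟨r, le_rfl, subset_univ _⟩
  · intro q A B hA hAB
    rw [hF] at hA ⊢
    intro r hr
    obtain ⟨s, hs, hsA⟩ := hA r hr
    exact ⟨s, hs, hsA.trans hAB⟩
  · intro q A
    obtain ⟨r, hr, h1 | h1⟩ := hD.dec q A
    · refine ⟨r, hr, Or.inl ?_⟩
      rw [hF]
      intro s hs
      exact ⟨s, le_rfl, (hD.mono hs).trans h1⟩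
    · refine ⟨r, hr, Or.inr ?_⟩
      rw [hF]
      intro s hs
      exact ⟨s, le_rfl, (hD.mono hs).trans h1⟩
  · rintro q A hb hA
    rw [hF] at hA
    obtain ⟨r, -, hrA⟩ := hA q le_rfl
    exact hD.unbdd r (hb.mono hrA)
  · intro q T hT X hX
    rw [hF]
    intro r hr
    have h1 : #T = #(#T).ord.ToType := by simp
    obtain ⟨e⟩ := Cardinal.eq.mp h1
    let R : Ordinal.{u} → Pos (Pts κ) γ → Prop := fun i p => ∀ h : i < (#T).ord,
      D p ⊆ X (e.symm (Ordinal.ToType.mk ⟨i, h⟩))
    have h2 : ∀ i < (#T).ord, ∀ p ≤ r, ∃ q ≤ p, R i q := by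
      intro i hi p hp
      have := hX (e.symm (Ordinal.ToType.mk ⟨i, hi⟩))
      rw [hF] at this
      obtain ⟨s, hs, hsX⟩ := this p (hp.trans hr)
      exact ⟨s, hs, fun _ => hsX⟩
    obtain ⟨s, hs, hsR⟩ := exists_fusion hP (#T).ord (ord_lt_ord.mpr hT)
      (fun i p => R i p ∨ ∀ t ≤ p, ¬ t ≤ r) (by
        intro i hi p
        by_cases hp : ∃ t ≤ p, t ≤ r
        · obtain ⟨t, htp, htr⟩ := hp
          obtain ⟨s, hs, hR⟩ := h2 i hi t htr
          exact ⟨s, hs.trans htp, Or.inl hR⟩
        · push Not at hp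
          exact ⟨p, le_rfl, Or.inr hp⟩) r
    refine ⟨s, hs, subset_iInter fun t => ?_⟩
    obtain ⟨r', hr', h | h⟩ := hsR (Ordinal.ToType.mk.symm (e t)).1 (Ordinal.ToType.mk.symm (e t)).2
    · have h3 := h (Ordinal.ToType.mk.symm (e t)).2
      have h4 : e.symm (Ordinal.ToType.mk
          ⟨(Ordinal.ToType.mk.symm (e t)).1, (Ordinal.ToType.mk.symm (e t)).2⟩) = t := by simp
      rw [h4] at h3
      exact (hD.mono hr').trans h3
    · exact absurd hs (h s hr')

section Converse

variable {S : Type u} [LinearOrder S] {P : Type v} [Preorder P] (U : PowerName S P) (p₀ : P)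

/-- The conditions built along a sequence `X` of moves of Cut: the `α`-th condition is below the
previous ones and decides `X α`. -/
noncomputable def condSeq (X : Ordinal.{u} → Set S) : Ordinal.{u} → P :=
  WellFounded.fix (C := fun _ => P) Ordinal.lt_wf
    (fun i F => by
      classical
      exact if h : ∃ q, (∀ j, (hj : j < i) → q ≤ F j hj) ∧ (Forces U q (X i) ∨ Forces U q (X i)ᶜ)
        then h.choose else p₀)

omit [LinearOrder S] in
open Classical in
theorem condSeq_eq (X : Ordinal.{u} → Set S) (i : Ordinal.{u}) : condSeq U p₀ X i =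
    if h : ∃ q, (∀ j, j < i → q ≤ condSeq U p₀ X j) ∧ (Forces U q (X i) ∨ Forces U q (X i)ᶜ)
      then h.choose else p₀ := by
  unfold condSeq
  rw [WellFounded.fix_eq]

omit [LinearOrder S] in
theorem condSeq_congr {X Y : Ordinal.{u} → Set S} (α : Ordinal.{u}) (h : ∀ β ≤ α, X β = Y β) :
    condSeq U p₀ X α = condSeq U p₀ Y α := by
  classical
  induction α using WellFoundedLT.induction with
  | ind α IH =>
    have h1 : ∀ j < α, condSeq U p₀ X j = condSeq U p₀ Y j := fun j hj =>
      IH j hj fun β hβ => h β (hβ.trans hj.le)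
    rw [condSeq_eq, condSeq_eq]
    have h2 : (fun q => (∀ j, j < α → q ≤ condSeq U p₀ X j) ∧
        (Forces U q (X α) ∨ Forces U q (X α)ᶜ)) =
        (fun q => (∀ j, j < α → q ≤ condSeq U p₀ Y j) ∧
        (Forces U q (Y α) ∨ Forces U q (Y α)ᶜ)) := by
      funext q
      rw [h α le_rfl]
      refine propext (and_congr_left fun _ => forall₂_congr fun j hj => ?_)
      rw [h1 j hj]
    simp only [h2]

theorem condSeq_spec {γ : Cardinal.{u}} (hU : IsCompleteUltrafilterName γ U)
    (hP : IsLtClosed P γ) (X : Ordinal.{u} → Set S) (α : Ordinal.{u}) (hα : α < γ.ord) :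
    (∀ j < α, condSeq U p₀ X α ≤ condSeq U p₀ X j) ∧
      (Forces U (condSeq U p₀ X α) (X α) ∨ Forces U (condSeq U p₀ X α) (X α)ᶜ) := by
  classical
  induction α using WellFoundedLT.induction with
  | ind α IH =>
    have hex : ∃ q, (∀ j, j < α → q ≤ condSeq U p₀ X j) ∧
        (Forces U q (X α) ∨ Forces U q (X α)ᶜ) := by
      obtain ⟨q, hq⟩ := hP α hα (fun j => condSeq U p₀ X j) (by
        intro a b hab
        rcases hab.eq_or_lt with h | h
        · rw [h]
        · exact (IH b b.2 (lt_trans b.2 hα)).1 a h)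
      obtain ⟨r, hr, h⟩ := hU.decide q (X α)
      exact ⟨r, fun j hj => hr.trans (hq ⟨j, hj⟩), h⟩
    rw [condSeq_eq, dif_pos hex]
    exact hex.choose_spec

/-- If a `<γ`-closed forcing adds a uniform `γ`-complete `V`-ultrafilter on `κ` then Choose
wins. -/
theorem chooseWins_of_name {κ γ : Cardinal.{u}} (hγ : ℵ₀ ≤ γ) {P : Type v} [Preorder P]
    [Nonempty P] (hP : IsLtClosed P γ) {U : PowerName (Pts κ) P}
    (hU : IsCompleteUltrafilterName γ U) : ChooseWins κ γ := by
  classical
  obtain ⟨p₀⟩ := (inferInstance : Nonempty P)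
  let ext : (α : Ordinal.{u}) → (Set.Iic α → Set (Pts κ)) → Ordinal.{u} → Set (Pts κ) :=
    fun α m β => if h : β ≤ α then m ⟨β, h⟩ else Set.univ
  let σ : ChooseStrategy (Pts κ) := fun α m =>
    decide (Forces U (condSeq U p₀ (ext α m) α) (m ⟨α, Set.mem_Iic.mpr le_rfl⟩))
  refine ⟨σ, ?_⟩
  intro A D C hrun
  have hσ : ∀ α, σ α (fun β => A β) = decide (Forces U (condSeq U p₀ A α) (A α)) := by
    intro α
    have h1 : condSeq U p₀ (ext α (fun β => A β)) α = condSeq U p₀ A α := by
      apply condSeq_congr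
      intro β hβ
      simp only [ext, dif_pos hβ]
    simp only [σ, h1]
  have hspec := condSeq_spec U p₀ hU hP A
  have key : ∀ α < γ.ord, Forces U (condSeq U p₀ A α) (D α) ∧
      Forces U (condSeq U p₀ A α) (C α) := by
    intro α
    induction α using WellFoundedLT.induction with
    | ind α IH =>
      intro hα
      have hD : Forces U (condSeq U p₀ A α) (D α) := by
        rcases Ordinal.zero_or_succ_or_isSuccLimit α with h | ⟨β, h⟩ | h
        · subst h
          rw [hrun.zero]
          exact hU.univ _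
        · have h' : α = β + 1 := h.symm
          subst h'
          have hβ : β < β + 1 := lt_add_one β
          rw [hrun.succ β hα]
          exact Forces.mono (IH β hβ (hβ.trans hα)).2 ((hspec _ hα).1 β hβ)
        · rw [hrun.limit α hα h]
          have h1 : #α.ToType < γ := by
            rw [Cardinal.mk_toType]
            exact Cardinal.lt_ord.mp hα
          have h2 := hU.complete (condSeq U p₀ A α) α.ToType h1
            (fun t => C (Ordinal.ToType.mk.symm t).1) (fun t =>
              Forces.mono (IH _ (Ordinal.ToType.mk.symm t).2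
                (lt_trans (Ordinal.ToType.mk.symm t).2 hα)).2
                ((hspec α hα).1 _ (Ordinal.ToType.mk.symm t).2))
          refine hU.superset _ _ _ h2 ?_
          intro a ha
          rw [mem_iInter] at ha
          rw [mem_iInter₂]
          intro β hβ
          have h3 := ha (Ordinal.ToType.mk ⟨β, hβ⟩)
          simpa using h3
      refine ⟨hD, ?_⟩
      rw [hrun.pick α hα, hσ α]
      by_cases h : Forces U (condSeq U p₀ A α) (A α)
      · simp [h]
      · have h4 := (hspec α hα).2.resolve_left h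
        simp only [h, decide_false, Bool.false_eq_true, if_false]
        exact hU.inter hγ _ _ _ hD h4
  intro α hα hb
  exact hU.uniform _ _ hb (key α hα).2

end Converse

/-- Choose wins iff some `<γ`-closed forcing adds a uniform `γ`-complete `V`-ultrafilter. -/
theorem chooseWins_iff {κ γ : Cardinal.{u}} (hγ : γ.IsRegular) : ChooseWins κ γ ↔
    ∃ (P : Type u) (_ : Preorder P), Nonempty P ∧ IsLtClosed P γ ∧
      ∃ U : PowerName (Pts κ) P, IsCompleteUltrafilterName γ U := by
  refine ⟨exists_completeName hγ, ?_⟩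
  rintro ⟨P, _, _, hP, U, hU⟩
  exact chooseWins_of_name hγ.aleph0_le hP hU

end Pool.Agent.Lib.MP_071b0a_lc
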