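import Pool.Agent.Lib.MP_071b0a_lc.Basic

open Cardinal Ordinal Set

universe u v

namespace Pool.Agent.Lib.MP_071b0a_lc

theorem exists_bdd_inj {κ : Cardinal.{u}} (T : Type u) (hT : #T < κ) :
    ∃ g : T → Pts κ, Function.Injective g ∧ BddAbove (Set.range g) := by
  have h1 : (#T).ord < κ.ord := ord_lt_ord.mpr hT
  let s := Ordinal.principalSegToType h1
  have h2 : #T = #((#T).ord.ToType) := by simp
  obtain ⟨e⟩ := Cardinal.eq.mp h2
  refine ⟨fun t => s (e t), s.toRelEmbedding.injective.comp e.injective, ⟨s.top, ?_⟩⟩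
  rintro _ ⟨t, rfl⟩
  exact (s.lt_top (e t)).le

theorem nonempty_pts {κ : Cardinal.{u}} (hκ : κ ≠ 0) : Nonempty (Pts κ) := by
  rw [← Cardinal.mk_ne_zero_iff]
  simpa using hκ

/-- If `κ ≤ lam ^ ν` for some `lam < κ` and `ν < γ`, then `κ` is not generically measurable
as witnessed by a `<γ`-closed notion of forcing. -/
theorem not_generically_measurable {κ γ lam ν : Cardinal.{u}} (hκ : ℵ₀ ≤ κ) (hγκ : γ ≤ κ)
    (hlam : lam < κ) (hν : ν < γ) (hpow : κ ≤ lam ^ ν)
    (P : Type v) [Preorder P] [Nonempty P] (hP : IsLtClosed P γ) :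
    ¬ IsGenericallyMeasurableBy κ P := by
  rintro ⟨U, hU⟩
  have : Nonempty (Pts κ) := nonempty_pts (aleph0_pos.trans_le hκ).ne'
  have hcard : #(Pts κ) ≤ #(ν.ord.ToType → lam.ord.ToType) := by
    simpa using hpow
  obtain ⟨e⟩ : Nonempty (Pts κ ↪ (ν.ord.ToType → lam.ord.ToType)) := hcard
  obtain ⟨g, hg, hgb⟩ := exists_bdd_inj (κ := κ) lam.ord.ToType (by simpa using hlam)
  obtain ⟨g', hg', hgb'⟩ := exists_bdd_inj (κ := κ) (Option ν.ord.ToType) (by
    rw [Cardinal.mk_option]
    have : #ν.ord.ToType = ν := by simp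
    rw [this]
    exact Cardinal.add_lt_of_lt hκ (hν.trans_le hγκ) (one_lt_aleph0.trans_le hκ))
  let R : Ordinal.{u} → P → Prop := fun i p => ∀ h : i < ν.ord,
    ∃ c, Forces U p {a | e a (Ordinal.ToType.mk ⟨i, h⟩) = c}
  obtain ⟨p₀⟩ := (inferInstance : Nonempty P)
  obtain ⟨p, -, hp⟩ := exists_fusion hP ν.ord (ord_lt_ord.mpr hν) R (by
    intro i hi p
    obtain ⟨q, hq, t, ht⟩ := hU.exists_const g hg hgb
      (fun a => e a (Ordinal.ToType.mk ⟨i, hi⟩)) p
    exact ⟨q, hq, fun _ => ⟨t, ht⟩⟩) p₀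
  have hp' : ∀ i : ν.ord.ToType, ∃ c, Forces U p {a | e a i = c} := by
    intro i
    obtain ⟨r, hr, hRr⟩ := hp (Ordinal.ToType.mk.symm i).1 (Ordinal.ToType.mk.symm i).2
    obtain ⟨c, hc⟩ := hRr (Ordinal.ToType.mk.symm i).2
    refine ⟨c, Forces.mono ?_ hr⟩
    simpa using hc
  choose c hc using hp'
  have h3 : Forces U p (⋂ i, {a | e a i = c i}) := hU.iInter g' hg' hgb' _ p hc
  apply hU.uniform p _ _ h3
  apply Set.Finite.bddAbove
  apply Set.Subsingleton.finite
  intro a ha b hb
  apply e.injective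
  funext i
  rw [mem_iInter] at ha hb
  exact (ha i).trans (hb i).symm

/-- A uniform `γ`-complete ultrafilter on `κ` yields a winning strategy for Choose. -/
theorem chooseWins_of_ultrafilter {κ γ : Cardinal.{u}}
    (U : Ultrafilter (Pts κ)) (hc : CardinalInterFilter (U : Filter (Pts κ)) γ)
    (hu : ∀ A : Set (Pts κ), BddAbove A → A ∉ U) : ChooseWins κ γ := by
  classical
  refine ⟨fun α A => decide (A ⟨α, Set.mem_Iic.mpr le_rfl⟩ ∈ U), ?_⟩
  intro A D C hrun
  have key : ∀ α < γ.ord, D α ∈ U ∧ C α ∈ U := by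
    intro α
    induction α using WellFoundedLT.induction with
    | ind α IH =>
      intro hα
      have hD : D α ∈ U := by
        rcases Ordinal.zero_or_succ_or_isSuccLimit α with h | ⟨β, h⟩ | h
        · subst h
          rw [hrun.zero]
          exact Filter.univ_mem
        · have h' : α = β + 1 := h.symm
          subst h'
          have hβ : β < β + 1 := lt_add_one β
          rw [hrun.succ β hα]
          exact (IH β hβ (hβ.trans hα)).2
        · rw [hrun.limit α hα h]
          have hS : (⋂₀ (C '' Set.Iio α)) ∈ (U : Filter (Pts κ)) := by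
            apply hc.cardinal_sInter_mem
            · have h1 : Cardinal.lift.{u+1, u} #(C '' Set.Iio α) ≤
                  Cardinal.lift.{u, u+1} #(Set.Iio α) := Cardinal.mk_image_le_lift
              have h2 : #(Set.Iio α) = Cardinal.lift.{u+1, u} α.card := by
                rw [Cardinal.mk_Iio_ordinal]
              rw [h2, Cardinal.lift_lift] at h1
              have h3 : #(C '' Set.Iio α) ≤ α.card := Cardinal.lift_le.mp h1
              exact h3.trans_lt (Cardinal.lt_ord.mp hα)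
            · rintro _ ⟨β, hβ, rfl⟩
              exact (IH β hβ (lt_trans hβ hα)).2
          rw [Set.sInter_image] at hS
          exact hS
      refine ⟨hD, ?_⟩
      rw [hrun.pick α hα]
      by_cases h : A α ∈ U
      · simp [h]
      · have : (A α)ᶜ ∈ U := Ultrafilter.compl_mem_iff_notMem.mpr h
        simp only [h, decide_false, Bool.false_eq_true, if_false]
        exact Filter.inter_mem hD this
  intro α hα hb
  exact hu _ hb (key α hα).2

/-- The tail filter on a regular cardinal is `κ`-complete. -/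
theorem cardinalInterFilter_atTop {κ : Cardinal.{u}} (hκ : κ.IsRegular) :
    CardinalInterFilter (Filter.atTop : Filter (Pts κ)) κ := by
  have : Nonempty (Pts κ) := nonempty_pts hκ.pos.ne'
  constructor
  intro S hS hmem
  have h1 : ∀ s : S, ∃ b : Pts κ, ∀ a, b ≤ a → a ∈ s.1 := by
    intro s
    have := hmem s.1 s.2
    rw [Filter.mem_atTop_sets] at this
    exact this
  choose b hb using h1
  have h2 : ¬ IsCofinal (Set.range b) := by
    intro hcof
    have h3 : Order.cof (Pts κ) ≤ #(Set.range b) := Order.cof_le hcof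
    rw [Ordinal.cof_toType, hκ.cof_ord] at h3
    exact absurd (h3.trans Cardinal.mk_range_le) (not_le.mpr hS)
  rw [Filter.mem_atTop_sets]
  unfold IsCofinal at h2
  push Not at h2
  obtain ⟨x, hx⟩ := h2
  refine ⟨x, ?_⟩
  intro a ha s hs
  exact hb ⟨s, hs⟩ a ((hx _ ⟨⟨s, hs⟩, rfl⟩).le.trans ha)

theorem IsStronglyCompact.exists_uniform {μ κ : Cardinal.{u}} (hμ : IsStronglyCompact μ)
    (hκ : κ.IsRegular) (hμκ : μ ≤ κ) :
    ∃ U : Ultrafilter (Pts κ), CardinalInterFilter (U : Filter (Pts κ)) μ ∧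
      ∀ A : Set (Pts κ), BddAbove A → A ∉ U := by
  have : Nonempty (Pts κ) := nonempty_pts hκ.pos.ne'
  have h0 : CardinalInterFilter (Filter.atTop : Filter (Pts κ)) μ :=
    ⟨fun S hS hmem => (cardinalInterFilter_atTop hκ).cardinal_sInter_mem S (hS.trans_le hμκ) hmem⟩
  obtain ⟨U, hU, hc⟩ := hμ.extend (Pts κ) Filter.atTop inferInstance h0
  refine ⟨U, hc, ?_⟩
  rintro A ⟨b, hb⟩ hA
  have : NoMaxOrder (Pts κ) := by
    have := Cardinal.noMaxOrder hκ.aleph0_le
    exact this
  have h1 : Set.Ioi b ∈ U := hU (Filter.Ioi_mem_atTop b)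
  have h2 : (A ∩ Set.Ioi b) ∈ U := Filter.inter_mem hA h1
  obtain ⟨a, ha, hab⟩ := U.neBot.nonempty_of_mem h2
  exact absurd (hb ha) (not_le.mpr hab)

end Pool.Agent.Lib.MP_071b0a_lc
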