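import Pool.Agent.Lib.MP_071b0a_lc.Basic

/-!
# Runs of the game and the tree of positions
-/

open Cardinal Ordinal Set

universe u v

namespace Pool.Agent.Lib.MP_071b0a_lc

section Play

variable {S : Type u} (σ : ChooseStrategy S) (X : Ordinal.{u} → Set S)

open Classical in
/-- The sets chosen by the strategy `σ` when in round `α` Cut splits the current set `D α` into
`D α ∩ X α` and `D α \ X α`. -/
noncomputable def playC : Ordinal.{u} → Set S :=
  WellFounded.fix (C := fun _ => Set S) Ordinal.lt_wf (fun α C =>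
    let D : Set.Iic α → Set S := fun β => ⋂ η, ⋂ (h : η < β.1), C η (lt_of_lt_of_le h β.2)
    if σ α (fun β => D β ∩ X β) = true then D ⟨α, Set.mem_Iic.mpr le_rfl⟩ ∩ X α
    else D ⟨α, Set.mem_Iic.mpr le_rfl⟩ \ (D ⟨α, Set.mem_Iic.mpr le_rfl⟩ ∩ X α))

noncomputable def playD (α : Ordinal.{u}) : Set S := ⋂ β ∈ Set.Iio α, playC σ X β

noncomputable def playA (α : Ordinal.{u}) : Set S := playD σ X α ∩ X α

theorem playC_eq (α : Ordinal.{u}) : playC σ X α =
    if σ α (fun β => playA σ X β) = true then playA σ X α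
    else playD σ X α \ playA σ X α := by
  classical
  have h := WellFounded.fix_eq (C := fun _ => Set S) Ordinal.lt_wf (fun α C =>
    let D : Set.Iic α → Set S := fun β => ⋂ η, ⋂ (h : η < β.1), C η (lt_of_lt_of_le h β.2)
    if σ α (fun β => D β ∩ X β) = true then D ⟨α, Set.mem_Iic.mpr le_rfl⟩ ∩ X α
    else D ⟨α, Set.mem_Iic.mpr le_rfl⟩ \ (D ⟨α, Set.mem_Iic.mpr le_rfl⟩ ∩ X α)) α
  exact h

theorem playC_subset (α : Ordinal.{u}) : playC σ X α ⊆ playD σ X α := by
  rw [playC_eq]
  split_ifs
  · exact Set.inter_subset_left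
  · exact Set.sdiff_subset

theorem playD_anti {α β : Ordinal.{u}} (h : α ≤ β) : playD σ X β ⊆ playD σ X α := by
  intro a ha
  simp only [playD, mem_iInter] at ha ⊢
  intro η hη
  exact ha η (lt_of_lt_of_le hη h)

theorem playD_succ (α : Ordinal.{u}) : playD σ X (α + 1) = playC σ X α := by
  apply Set.Subset.antisymm
  · intro a ha
    simp only [playD, mem_iInter] at ha
    exact ha α (lt_add_one α)
  · intro a ha
    simp only [playD, mem_iInter]
    intro β hβ
    rcases (Order.lt_add_one_iff.mp (Set.mem_Iio.mp hβ)).eq_or_lt with h | h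
    · rw [h]; exact ha
    · have := playC_subset σ X α ha
      simp only [playD, mem_iInter] at this
      exact this β h

/-- Every strategy of Choose and every sequence of intended cuts give a run. -/
theorem isRun_play (δ : Ordinal.{u}) : IsRun σ δ (playA σ X) (playD σ X) (playC σ X) where
  zero := by
    simp [playD]
  split := fun α _ => Set.inter_subset_left
  pick := fun α _ => playC_eq σ X α
  succ := fun α _ => playD_succ σ X α
  limit := fun _ _ _ => rfl

theorem playC_congr {X Y : Ordinal.{u} → Set S} (α : Ordinal.{u}) (h : ∀ β ≤ α, X β = Y β) :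
    playC σ X α = playC σ Y α := by
  induction α using WellFoundedLT.induction with
  | ind α IH =>
    have hD : ∀ β ≤ α, playD σ X β = playD σ Y β := by
      intro β hβ
      simp only [playD]
      apply Set.iInter_congr
      intro η
      apply Set.iInter_congr
      intro hη
      exact IH η (lt_of_lt_of_le hη hβ) (fun β' hβ' =>
        h β' (hβ'.trans (le_of_lt (lt_of_lt_of_le hη hβ))))
    have hA : ∀ β ≤ α, playA σ X β = playA σ Y β := by
      intro β hβ
      simp only [playA]
      rw [hD β hβ, h β hβ]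
    rw [playC_eq, playC_eq]
    have : (fun β : Set.Iic α => playA σ X β) = (fun β : Set.Iic α => playA σ Y β) := by
      funext β
      exact hA β β.2
    rw [this, hA α le_rfl, hD α le_rfl]

theorem playD_congr {X Y : Ordinal.{u} → Set S} (α : Ordinal.{u}) (h : ∀ β < α, X β = Y β) :
    playD σ X α = playD σ Y α := by
  simp only [playD]
  apply Set.iInter_congr
  intro η
  apply Set.iInter_congr
  intro hη
  exact playC_congr σ η (fun β hβ => h β (lt_of_le_of_lt hβ hη))

end Play

/-- The tree of positions: a length `< γ` and the intended cuts made so far (the values at and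
beyond the length are irrelevant). -/
structure Pos (S : Type u) (γ : Cardinal.{u}) : Type u where
  len : γ.ord.ToType
  cut : γ.ord.ToType → Set S

instance (S : Type u) (γ : Cardinal.{u}) : Preorder (Pos S γ) where
  le q p := p.len ≤ q.len ∧ ∀ i < p.len, q.cut i = p.cut i
  le_refl p := ⟨le_rfl, fun _ _ => rfl⟩
  le_trans r q p h1 h2 := ⟨h2.1.trans h1.1, fun i hi =>
    (h1.2 i (lt_of_lt_of_le hi h2.1)).trans (h2.2 i hi)⟩

theorem Pos.le_def {S : Type u} {γ : Cardinal.{u}} (q p : Pos S γ) :
    q ≤ p ↔ p.len ≤ q.len ∧ ∀ i < p.len, q.cut i = p.cut i := Iff.rfl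

open Classical in
/-- Intended cuts as a function on all ordinals. -/
noncomputable def Pos.cuts {S : Type u} {γ : Cardinal.{u}} (p : Pos S γ) :
    Ordinal.{u} → Set S :=
  fun α => if h : α < γ.ord then p.cut (Ordinal.ToType.mk ⟨α, h⟩) else Set.univ

noncomputable def Pos.ord {S : Type u} {γ : Cardinal.{u}} (p : Pos S γ) : Ordinal.{u} :=
  (Ordinal.ToType.mk.symm p.len).1

theorem Pos.ord_lt {S : Type u} {γ : Cardinal.{u}} (p : Pos S γ) : p.ord < γ.ord :=
  (Ordinal.ToType.mk.symm p.len).2

theorem Pos.ord_le {S : Type u} {γ : Cardinal.{u}} {q p : Pos S γ} (h : q ≤ p) :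
    p.ord ≤ q.ord := by
  have := Ordinal.ToType.mk.symm.monotone h.1
  exact this

theorem Pos.cuts_eq {S : Type u} {γ : Cardinal.{u}} {q p : Pos S γ} (h : q ≤ p)
    {α : Ordinal.{u}} (hα : α < p.ord) : q.cuts α = p.cuts α := by
  have h1 : α < γ.ord := hα.trans p.ord_lt
  simp only [Pos.cuts, dif_pos h1]
  apply h.2
  rw [← Ordinal.ToType.mk.symm.lt_iff_lt, OrderIso.symm_apply_apply]
  exact hα

/-- The current set at a position. -/
noncomputable def Pos.cur {S : Type u} {γ : Cardinal.{u}} (σ : ChooseStrategy S)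
    (p : Pos S γ) : Set S := playD σ p.cuts p.ord

theorem Pos.cur_mono {S : Type u} {γ : Cardinal.{u}} (σ : ChooseStrategy S) {q p : Pos S γ}
    (h : q ≤ p) : q.cur σ ⊆ p.cur σ := by
  have h1 := playD_anti σ q.cuts (Pos.ord_le h)
  have h2 : playD σ q.cuts p.ord = playD σ p.cuts p.ord :=
    playD_congr σ _ (fun β hβ => Pos.cuts_eq h hβ)
  intro a ha
  have := h1 ha
  rw [h2] at this
  exact this

theorem Pos.cur_dec {S : Type u} {γ : Cardinal.{u}} (hγ : ℵ₀ ≤ γ) (σ : ChooseStrategy S)
    (p : Pos S γ) (A : Set S) : ∃ q ≤ p, q.cur σ ⊆ A ∨ q.cur σ ⊆ Aᶜ := by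
  classical
  have h1 : p.ord + 1 < γ.ord := (Cardinal.isSuccLimit_ord hγ).add_one_lt p.ord_lt
  let q : Pos S γ := ⟨Ordinal.ToType.mk ⟨p.ord + 1, h1⟩,
    fun i => if i = p.len then A else p.cut i⟩
  have hqord : q.ord = p.ord + 1 := by simp [q, Pos.ord]
  have hqp : q ≤ p := by
    rw [Pos.le_def]
    constructor
    · rw [← Ordinal.ToType.mk.symm.le_iff_le]
      have : (Ordinal.ToType.mk.symm p.len).1 ≤ (Ordinal.ToType.mk.symm q.len).1 := by
        have h2 : (Ordinal.ToType.mk.symm q.len).1 = p.ord + 1 := hqord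
        rw [h2]
        exact (lt_add_one p.ord).le
      exact this
    · intro i hi
      simp only [q]
      rw [if_neg hi.ne]
  have hcut : q.cuts p.ord = A := by
    simp only [Pos.cuts, dif_pos p.ord_lt]
    have h3 : (Ordinal.ToType.mk ⟨p.ord, p.ord_lt⟩ : γ.ord.ToType) = p.len := by
      simp [Pos.ord]
    rw [h3]
    simp [q]
  refine ⟨q, hqp, ?_⟩
  have h4 : q.cur σ = playC σ q.cuts p.ord := by
    rw [Pos.cur, hqord, playD_succ]
  rw [h4, playC_eq]
  split_ifs with h5
  · left
    intro a ha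
    have := ha.2
    rw [hcut] at this
    exact this
  · right
    intro a ha haA
    apply ha.2
    refine ⟨ha.1, ?_⟩
    rw [hcut]
    exact haA

theorem Pos.cur_unbounded {κ γ : Cardinal.{u}} (σ : ChooseStrategy (Pts κ))
    (hσ : ∀ A D C : Ordinal.{u} → Set (Pts κ),
      IsRun σ γ.ord A D C → ∀ α < γ.ord, ¬ BddAbove (C α)) (p : Pos (Pts κ) γ) :
    ¬ BddAbove (p.cur σ) := by
  intro hb
  have h1 := hσ _ _ _ (isRun_play σ p.cuts γ.ord) p.ord p.ord_lt
  exact h1 (hb.mono (playC_subset σ p.cuts p.ord))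

theorem Pos.isLtClosed {S : Type u} {γ : Cardinal.{u}} (hγ : γ.IsRegular) :
    IsLtClosed (Pos S γ) γ := by
  classical
  intro δ hδ p hp
  -- the supremum of the lengths
  have hsup : ∃ L : γ.ord.ToType, ∀ i, (p i).len ≤ L := by
    by_contra hcon
    push Not at hcon
    have hcof : IsCofinal (Set.range fun i => (p i).len) := by
      intro x
      obtain ⟨i, hi⟩ := hcon x
      exact ⟨_, ⟨i, rfl⟩, hi.le⟩
    have h3 : Order.cof γ.ord.ToType ≤ #(Set.range fun i => (p i).len) := Order.cof_le hcof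
    rw [Ordinal.cof_toType, hγ.cof_ord] at h3
    have h4 : Cardinal.lift.{u+1, u} #(Set.range fun i => (p i).len) ≤
        Cardinal.lift.{u, u+1} #(Set.Iio δ) := Cardinal.mk_range_le_lift
    rw [Cardinal.mk_Iio_ordinal, Cardinal.lift_lift] at h4
    have h5 := Cardinal.lift_le.mp h4
    exact absurd (h3.trans h5) (not_le.mpr (Cardinal.lt_ord.mp hδ))
  obtain ⟨L, hL⟩ := hsup
  -- a common extension
  let X : γ.ord.ToType → Set S := fun j =>
    if h : ∃ i, j < (p i).len then (p h.choose).cut j else Set.univ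
  refine ⟨⟨L, X⟩, ?_⟩
  intro i
  rw [Pos.le_def]
  refine ⟨hL i, ?_⟩
  intro j hj
  have hex : ∃ i, j < (p i).len := ⟨i, hj⟩
  simp only [X, dif_pos hex]
  have h6 := hex.choose_spec
  rcases le_total hex.choose i with h | h
  · exact ((hp h).2 j h6).symm
  · exact (hp h).2 j hj

end Pool.Agent.Lib.MP_071b0a_lc
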