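import Pool.Agent.Lib.MP_071b0a_lc.Play
import Pool.Agent.Lib.MP_071b0a_lc.NegGen

/-!
# From a `<γ`-closed forcing adding a uniform ultrafilter to generic measurability
-/

open Cardinal Ordinal Set

universe u v

namespace Pool.Agent.Lib.MP_071b0a_lc

/-- `D : P → 𝒫(S)` generates a name for a uniform ultrafilter. -/
structure Generates {S : Type u} [LinearOrder S] {P : Type u} [Preorder P] (D : P → Set S) :
    Prop where
  mono : ∀ {q p : P}, q ≤ p → D q ⊆ D p
  unbdd : ∀ p, ¬ BddAbove (D p)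
  dec : ∀ (p : P) (A : Set S), ∃ q ≤ p, D q ⊆ A ∨ D q ⊆ Aᶜ

section

variable {S : Type u} [LinearOrder S] [Nonempty S] {P : Type u} [Preorder P] {D : P → Set S}
  {γ : Cardinal.{u}}

/-- `q` decides the function `f`: `f` is constant on `D q`. -/
def Decides (D : P → Set S) {T : Type u} (q : P) (f : S → T) : Prop := ∃ t, ∀ a ∈ D q, f a = t

theorem Generates.nonempty (hD : Generates D) (p : P) : (D p).Nonempty := by
  by_contra h
  rw [Set.not_nonempty_iff_eq_empty] at h
  apply hD.unbdd p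
  rw [h]
  exact bddAbove_empty

theorem Decides.mono (hD : Generates D) {T : Type u} {q p : P} {f : S → T} (h : Decides D p f)
    (hq : q ≤ p) : Decides D q f := by
  obtain ⟨t, ht⟩ := h
  exact ⟨t, fun a ha => ht a (hD.mono hq ha)⟩

/-- Functions into a product of fewer than `γ` two point sets are decided densely. -/
theorem Generates.decides_pow (hD : Generates D) (hP : IsLtClosed P γ) {ν : Cardinal.{u}}
    (hν : ν < γ) (f : S → (ν.ord.ToType → Prop)) (p : P) : ∃ q ≤ p, Decides D q f := by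
  classical
  let R : Ordinal.{u} → P → Prop := fun i p => ∀ h : i < ν.ord,
    ∃ c : Prop, ∀ a ∈ D p, f a (Ordinal.ToType.mk ⟨i, h⟩) = c
  obtain ⟨q, hq, hqR⟩ := exists_fusion hP ν.ord (ord_lt_ord.mpr hν) R (by
    intro i hi p
    obtain ⟨q, hq, h | h⟩ := hD.dec p {a | f a (Ordinal.ToType.mk ⟨i, hi⟩)}
    · refine ⟨q, hq, fun _ => ⟨True, fun a ha => ?_⟩⟩
      have := h ha
      simpa using this
    · refine ⟨q, hq, fun _ => ⟨False, fun a ha => ?_⟩⟩
      have := h ha
      simpa using this) p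
  have h1 : ∀ i : ν.ord.ToType, ∃ c : Prop, ∀ a ∈ D q, f a i = c := by
    intro i
    obtain ⟨r, hr, hRr⟩ := hqR (Ordinal.ToType.mk.symm i).1 (Ordinal.ToType.mk.symm i).2
    obtain ⟨c, hc⟩ := hRr (Ordinal.ToType.mk.symm i).2
    refine ⟨c, fun a ha => ?_⟩
    have := hc a (hD.mono hr ha)
    simpa using this
  choose c hc using h1
  exact ⟨q, hq, c, fun a ha => funext fun i => hc i a ha⟩

/-- The set of cardinals `c` such that some function into a set of size `c` is never decided below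
some condition. -/
def BadCard (D : P → Set S) : Set Cardinal.{u} :=
  {c | ∃ (p : P) (f : S → Pts c), ∀ q ≤ p, ¬ Decides D q f}

theorem Generates.mem_badCard (hD : Generates D) [Nonempty P] : #S ∈ BadCard D := by
  obtain ⟨p⟩ := (inferInstance : Nonempty P)
  have h1 : #S = #(Pts #S) := by simp
  obtain ⟨e⟩ := Cardinal.eq.mp h1
  refine ⟨p, e, ?_⟩
  rintro q - ⟨t, ht⟩
  apply hD.unbdd q
  refine ⟨e.symm t, fun a ha => ?_⟩
  rw [← ht a ha]
  simp

noncomputable def critCard (D : P → Set S) : Cardinal.{u} := sInf (BadCard D)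

theorem Generates.critCard_mem (hD : Generates D) [Nonempty P] : critCard D ∈ BadCard D :=
  csInf_mem ⟨_, hD.mem_badCard⟩

theorem Generates.critCard_le (hD : Generates D) [Nonempty P] : critCard D ≤ #S :=
  csInf_le' hD.mem_badCard

theorem decides_of_lt {T : Type u} (hT : #T < critCard D) (f : S → T) (p : P) :
    ∃ q ≤ p, Decides D q f := by
  have h1 : #T ∉ BadCard D := notMem_of_lt_csInf' hT
  have h2 : #T = #(Pts #T) := by simp
  obtain ⟨e⟩ := Cardinal.eq.mp h2
  by_contra hcon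
  push Not at hcon
  apply h1
  refine ⟨p, fun a => e (f a), ?_⟩
  rintro q hq ⟨t, ht⟩
  apply hcon q hq
  refine ⟨e.symm t, fun a ha => ?_⟩
  rw [← ht a ha]
  simp

theorem Generates.two_power_lt (hD : Generates D) [Nonempty P] (hP : IsLtClosed P γ)
    {ν : Cardinal.{u}} (hν : ν < γ) : (2 : Cardinal.{u}) ^ ν < critCard D := by
  by_contra hcon
  push Not at hcon
  obtain ⟨p, f, hf⟩ := hD.critCard_mem
  have h1 : #(Pts (critCard D)) ≤ #(ν.ord.ToType → Prop) := by
    simpa using hcon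
  obtain ⟨e⟩ : Nonempty (Pts (critCard D) ↪ (ν.ord.ToType → Prop)) := h1
  obtain ⟨q, hq, t, ht⟩ := hD.decides_pow hP hν (fun a => e (f a)) p
  apply hf q hq
  obtain ⟨a₀, ha₀⟩ := hD.nonempty q
  exact ⟨f a₀, fun a ha => e.injective ((ht a ha).trans (ht a₀ ha₀).symm)⟩

theorem Generates.le_critCard (hD : Generates D) [Nonempty P] (hP : IsLtClosed P γ) :
    γ ≤ critCard D := by
  by_contra hcon
  push Not at hcon
  have := hD.two_power_lt hP hcon
  exact absurd (this.trans (Cardinal.cantor _)) (lt_irrefl _)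

/-- A function bounded on `D q` is decided below `q`. -/
theorem Generates.decides_of_bdd (hD : Generates D) [Nonempty P] (h : S → Pts (critCard D))
    (q : P) (b : Pts (critCard D)) (hb : ∀ a ∈ D q, h a ≤ b) : ∃ r ≤ q, Decides D r h := by
  classical
  by_cases hfin : critCard D < ℵ₀
  · exfalso
    -- a finite critical cardinal is impossible
    obtain ⟨p, f, hf⟩ := hD.critCard_mem
    have hf2 : Finite (Pts (critCard D)) := by
      rw [← Cardinal.lt_aleph0_iff_finite]
      simpa using hfin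
    have hclosed : ∀ (s : Finset (Pts (critCard D))) (p' : P), p' ≤ p →
        (∀ a ∈ D p', f a ∈ s) → ∃ q ≤ p', Decides D q f := by
      intro s
      induction s using Finset.induction_on with
      | empty =>
        intro p' _ hs
        obtain ⟨a, ha⟩ := hD.nonempty p'
        exact absurd (hs a ha) (by simp)
      | insert t s hts IH =>
        intro p' hp' hs
        obtain ⟨q, hq, h1 | h1⟩ := hD.dec p' {a | f a = t}
        · exact ⟨q, hq, t, fun a ha => h1 ha⟩
        · obtain ⟨r, hr, hrd⟩ := IH q (hq.trans hp') (by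
            intro a ha
            have h2 := hs a (hD.mono hq ha)
            rw [Finset.mem_insert] at h2
            exact h2.resolve_left (h1 ha))
          exact ⟨r, hr.trans hq, hrd⟩
    have := Fintype.ofFinite (Pts (critCard D))
    obtain ⟨q, hq, hqd⟩ := hclosed Finset.univ p le_rfl (by simp)
    exact hf q hq hqd
  · push Not at hfin
    have hsmall : #(Set.Iic b) < critCard D := by
      have h1 : #(Set.Iio b) < critCard D := Cardinal.mk_Iio_toType_ord_lt b
      have h2 : (Set.Iic b) = insert b (Set.Iio b) := by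
        rw [Set.Iio_insert]
      rw [h2]
      refine lt_of_le_of_lt Cardinal.mk_insert_le ?_
      exact Cardinal.add_lt_of_lt hfin h1 (one_lt_aleph0.trans_le hfin)
    obtain ⟨r, hr, t, ht⟩ := decides_of_lt (D := D) hsmall
      (fun a => (⟨min (h a) b, Set.mem_Iic.mpr (min_le_right _ _)⟩ : Set.Iic b)) q
    refine ⟨r, hr, t.1, fun a ha => ?_⟩
    have h3 := congrArg Subtype.val (ht a ha)
    rw [← h3]
    exact (min_eq_left (hb a (hD.mono hr ha))).symm

theorem Generates.critCard_regular (hD : Generates D) [Nonempty P] (hP : IsLtClosed P γ)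
    (hγ : ℵ₀ ≤ γ) : (critCard D).IsRegular := by
  refine ⟨hγ.trans (hD.le_critCard hP), ?_⟩
  by_contra hcon
  push Not at hcon
  obtain ⟨p, f, hf⟩ := hD.critCard_mem
  have h1 : Order.cof (Pts (critCard D)) < critCard D := by
    rw [Ordinal.cof_toType]; exact hcon
  obtain ⟨s, hs, hs'⟩ := Order.exists_cof_eq (Pts (critCard D))
  have h2 : ∀ a, ∃ b : s, f a ≤ b := by
    intro a
    obtain ⟨b, hb, hab⟩ := hs (f a)
    exact ⟨⟨b, hb⟩, hab⟩
  choose g hg using h2
  obtain ⟨q, hq, t, ht⟩ := decides_of_lt (D := D) (by rw [hs']; exact h1) g p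
  obtain ⟨r, hr, hrd⟩ := hD.decides_of_bdd f q t.1 (fun a ha => by
    rw [← ht a ha]
    exact hg a)
  exact hf r (hr.trans hq) hrd

/-- There is a minimal undecided function. -/
theorem Generates.exists_minimal (hD : Generates D) [Nonempty P] (hP : IsLtClosed P γ)
    (hγ : ℵ₀ < γ) : ∃ (p : P) (h : S → Pts (critCard D)), (∀ q ≤ p, ¬ Decides D q h) ∧
      ∀ q ≤ p, ∀ h' : S → Pts (critCard D), (∀ a ∈ D q, h' a < h a) →
        ∃ r ≤ q, Decides D r h' := by
  classical
  by_contra hcon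
  push Not at hcon
  obtain ⟨p₀, f₀, hf₀⟩ := hD.critCard_mem
  let Y := {x : P × (S → Pts (critCard D)) // ∀ q ≤ x.1, ¬ Decides D q x.2}
  have step : ∀ x : Y, ∃ y : Y, y.1.1 ≤ x.1.1 ∧ ∀ a ∈ D y.1.1, y.1.2 a < x.1.2 a := by
    rintro ⟨⟨p, h⟩, hx⟩
    obtain ⟨q, hq, h', hlt, hno⟩ := hcon p h hx
    exact ⟨⟨⟨q, h'⟩, hno⟩, hq, hlt⟩
  choose nxt hn1 hn2 using step
  let seq : ℕ → Y := fun n => Nat.rec ⟨⟨p₀, f₀⟩, hf₀⟩ (fun _ y => nxt y) n
  have hseq : ∀ n, seq (n + 1) = nxt (seq n) := fun n => rfl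
  have hanti : Antitone (fun n => (seq n).1.1) := by
    apply antitone_nat_of_succ_le
    intro n
    rw [hseq]
    exact hn1 (seq n)
  -- lower bound
  have hω : (Ordinal.omega0.{u}) < γ.ord := by
    rw [← Cardinal.ord_aleph0]
    exact ord_lt_ord.mpr hγ
  have hidx : ∀ i : Set.Iio (Ordinal.omega0.{u}), ∃ n : ℕ, (n : Ordinal.{u}) = i.1 := by
    intro i
    obtain ⟨n, hn⟩ := Ordinal.lt_omega0.mp i.2
    exact ⟨n, hn.symm⟩
  choose idx hidx' using hidx
  obtain ⟨q, hq⟩ := hP Ordinal.omega0 hω (fun i => (seq (idx i)).1.1) (by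
    intro i j hij
    apply hanti
    have : (idx i : Ordinal.{u}) ≤ idx j := by
      rw [hidx' i, hidx' j]; exact hij
    exact_mod_cast this)
  have hq' : ∀ n : ℕ, q ≤ (seq n).1.1 := by
    intro n
    have h1 : (n : Ordinal.{u}) < Ordinal.omega0 := Ordinal.natCast_lt_omega0 n
    have h2 := hq ⟨n, h1⟩
    have h3 : idx ⟨n, h1⟩ = n := by
      have h4 : ((idx ⟨n, h1⟩ : ℕ) : Ordinal.{u}) = (n : Ordinal.{u}) := hidx' ⟨n, h1⟩
      exact Nat.cast_injective h4
    simpa [h3] using h2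
  obtain ⟨a, ha⟩ := hD.nonempty q
  have hdesc : ∀ n, (seq (n + 1)).1.2 a < (seq n).1.2 a := by
    intro n
    rw [hseq]
    apply hn2
    rw [← hseq]
    exact hD.mono (hq' (n + 1)) ha
  exact (RelEmbedding.wellFounded_iff_isEmpty.mp
    (wellFounded_lt (α := Pts (critCard D)))).false (RelEmbedding.natGT (fun n => (seq n).1.2 a) hdesc)

theorem Generates.exists_genericallyMeasurable (hD : Generates D) [Nonempty P]
    (hP : IsLtClosed P γ) (hγ : ℵ₀ < γ) :
    ∃ (Q : Type u) (_ : Preorder Q), Nonempty Q ∧ IsLtClosed Q γ ∧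
      IsGenericallyMeasurableBy (critCard D) Q := by
  classical
  obtain ⟨p, h, hund, hmin⟩ := hD.exists_minimal hP hγ
  have hreg := hD.critCard_regular hP hγ.le
  have hne : Nonempty (Pts (critCard D)) := nonempty_pts hreg.pos.ne'
  refine ⟨{q : P // q ≤ p}, inferInstance, ⟨⟨p, le_rfl⟩⟩, ?_, ?_⟩
  · intro δ hδ s hs
    by_cases h0 : δ = 0
    · subst h0
      exact ⟨⟨p, le_rfl⟩, fun i => absurd i.2 (by simp)⟩
    · have hpos : 0 < δ := pos_iff_ne_zero.mpr h0
      obtain ⟨q, hq⟩ := hP δ hδ (fun i => (s i).1) (fun i j hij => hs hij)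
      exact ⟨⟨q, (hq ⟨0, hpos⟩).trans (s ⟨0, hpos⟩).2⟩, fun i => hq i⟩
  · let U : PowerName (Pts (critCard D)) {q : P // q ≤ p} :=
      {x | ∀ a ∈ D x.2.1, h a ∈ x.1}
    have hF : ∀ (q : {q : P // q ≤ p}) (B : Set (Pts (critCard D))), Forces U q B ↔
        ∀ r : {q : P // q ≤ p}, r ≤ q → ∃ s ≤ r, ∀ a ∈ D s.1, h a ∈ B := by
      intro q B
      constructor
      · intro hq r hr
        obtain ⟨s, hs, t, ht, hst⟩ := hq r hr
        exact ⟨s, hs, fun a ha => ht a (hD.mono hst ha)⟩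
      · intro hq r hr
        obtain ⟨s, hs, hsB⟩ := hq r hr
        exact ⟨s, hs, s, hsB, le_rfl⟩
    refine ⟨U, ?_⟩
    constructor
    · intro q
      rw [hF]
      exact fun r _ => ⟨r, le_rfl, fun _ _ => trivial⟩
    · intro q A B hA hAB
      rw [hF] at hA ⊢
      intro r hr
      obtain ⟨s, hs, hsA⟩ := hA r hr
      exact ⟨s, hs, fun a ha => hAB (hsA a ha)⟩
    · intro q A B hA hB
      rw [hF] at hA hB ⊢
      intro r hr
      obtain ⟨s, hs, hsA⟩ := hA r hr
      obtain ⟨t, ht, htB⟩ := hB s (hs.trans hr)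
      exact ⟨t, ht.trans hs, fun a ha => ⟨hsA a (hD.mono ht ha), htB a ha⟩⟩
    · intro q A
      obtain ⟨r, hr, h1 | h1⟩ := hD.dec q.1 {a | h a ∈ A}
      · refine ⟨⟨r, hr.trans q.2⟩, hr, Or.inl ?_⟩
        rw [hF]
        intro s hs
        exact ⟨s, le_rfl, fun a ha => h1 (hD.mono hs ha)⟩
      · refine ⟨⟨r, hr.trans q.2⟩, hr, Or.inr ?_⟩
        rw [hF]
        intro s hs
        exact ⟨s, le_rfl, fun a ha => h1 (hD.mono hs ha)⟩
    · rintro q A ⟨b, hb⟩ hA
      rw [hF] at hA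
      obtain ⟨r, hr, hrA⟩ := hA q le_rfl
      obtain ⟨s, hs, hsd⟩ := hD.decides_of_bdd h r.1 b (fun a ha => hb (hrA a ha))
      exact hund s (hs.trans r.2) hsd
    · intro q f hf
      rw [hF] at hf
      obtain ⟨r, hr, hrf⟩ := hf q le_rfl
      obtain ⟨s, hs, t, ht⟩ := hmin r.1 r.2 (fun a => f (h a)) (fun a ha => hrf a ha)
      refine ⟨⟨s, hs.trans r.2⟩, le_trans (show (⟨s, hs.trans r.2⟩ : {q : P // q ≤ p}) ≤ r from hs)
        hr, t, ?_⟩
      rw [hF]
      intro w hw
      exact ⟨w, le_rfl, fun a ha => ht a (hD.mono hw ha)⟩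

end

theorem generates_pos {κ γ : Cardinal.{u}} (hγ : ℵ₀ ≤ γ) (σ : ChooseStrategy (Pts κ))
    (hσ : ∀ A D C : Ordinal.{u} → Set (Pts κ),
      IsRun σ γ.ord A D C → ∀ α < γ.ord, ¬ BddAbove (C α)) :
    Generates (fun p : Pos (Pts κ) γ => p.cur σ) where
  mono := fun h => Pos.cur_mono σ h
  unbdd := fun p => Pos.cur_unbounded σ hσ p
  dec := fun p A => Pos.cur_dec hγ σ p A

end Pool.Agent.Lib.MP_071b0a_lc
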